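import Pool.Agent.Q45.ML.Der

/-!
# `L'(E, -1)` from smoothed point counts, and `K_4` of curves of genus one

Let `E` be an elliptic curve over `ℚ` (a Weierstrass curve, all finite places), `F` the entire continuation of its
`L`-series, with its zero at `-1`. With the roots `α_p, β_p` of `X² - a_p X + e_p` and `γ > π/2` put

`S(T) = ∑_p ∑_{k ≥ 1} ((α_p^k + β_p^k) p^k / k) e^{iγ k log p/T} / Γ(1 + k log p/T)`

(each term grows like `p^{3k/2}`, the series converges absolutely because of the Gamma factor). Then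
`T e^{S(T)} e^{-Λ} → L'(E, -1)` with error `O(1/T)`, the sign of `L'(E, -1)` is given by the real zeros of `L(E, s)`
to the right of `-1`, and a regulator value `ρ ≠ 0` is a nonzero rational multiple of `L'(E, -1)` if and only if for
some `D ≥ 1` the numbers `D T e^{S(T)} e^{-Λ}/ρ` approach the integers along one sequence `T → ∞`.
-/

set_option autoImplicit false

namespace Pool.Agent.Results.MP_4132b3_nt.DerivativeAtMinusOne

open IsDedekindDomain NumberField Filter Topology Asymptotics Pool.Agent.Q45.ML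

/-- the term at `(p, k)`, `k = x.2 + 1`, of the smoothed sum at `-1` (see `ecTermAt`) -/
noncomputable def term (E : WeierstrassCurve ℚ) (γ T : ℝ) (x : HeightOneSpectrum (𝓞 ℚ) × ℕ) : ℂ :=
  ecTermAt E (-1) γ T x

/-- the smoothed sum -/
noncomputable def S (E : WeierstrassCurve ℚ) (γ T : ℝ) : ℂ := ∑' x, term E γ T x

/-- the constant `Λ(γ) = ∫_0^∞ (e^{-t} - e^{iγt}/Γ(1+t)) dt/t` -/
noncomputable def Lam (γ : ℝ) : ℂ := Pool.Agent.W187.UR.Lam γ

/-- the number of zeros of `F` on `(-1, ∞)`, with multiplicities -/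
noncomputable def count (F : ℂ → ℂ) : ℤ :=
  ∑ᶠ σ ∈ Set.Ioi (-1 : ℝ), (meromorphicOrderAt F (σ : ℂ)).untop₀

/-- the distance from the integers -/
noncomputable def distInt (z : ℂ) : ℝ := Metric.infDist z (Set.range fun a : ℤ => (a : ℂ))

theorem result (E : WeierstrassCurve ℚ) (F : ℂ → ℂ) (hent : Differentiable ℂ F)
    (hF : ∀ s : ℂ, 2 < s.re → F s = E.LSeries s) (h0 : F (-1) = 0) (h1 : deriv F (-1) ≠ 0)
    {γ : ℝ} (hγ : Real.pi / 2 < γ) :
    (∀ T : ℝ, 0 < T → Summable fun x => ‖term E γ T x‖) ∧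
    (fun T : ℝ => Complex.exp (S E γ T) * T * Complex.exp (-Lam γ) - deriv F (-1)) =O[atTop]
      (fun T : ℝ => 1 / T) ∧
    deriv F (-1) = (-1) ^ (count F) * (‖deriv F (-1)‖ : ℂ) ∧
    (∀ ρ : ℝ, ρ ≠ 0 → ∀ D : ℕ, List.TFAE [∃ a : ℤ, D * (deriv F (-1) / ρ) = a,
      Tendsto (fun T : ℝ => distInt (D * (Complex.exp (S E γ T) * T * Complex.exp (-Lam γ) / ρ)))
        atTop (𝓝 0),
      ∃ t : ℕ → ℝ, Tendsto t atTop atTop ∧ Tendsto (fun i =>
        distInt (D * (Complex.exp (S E γ (t i)) * t i * Complex.exp (-Lam γ) / ρ))) atTop (𝓝 0)]) ∧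
    ∀ ρ : ℝ, ρ ≠ 0 → ((∃ x : ℚ, x ≠ 0 ∧ (ρ : ℂ) = x * deriv F (-1)) ↔
      ∃ D : ℕ, 0 < D ∧ ∃ t : ℕ → ℝ, Tendsto t atTop atTop ∧ Tendsto (fun i =>
        distInt (D * (Complex.exp (S E γ (t i)) * t i * Complex.exp (-Lam γ) / ρ))) atTop (𝓝 0)) := by
  obtain ⟨hs, m, r, g1, g2, g3, g4⟩ := ec_law_at (E := E) (F := F) (s₀ := -1) (by norm_num)
    (fun x _ _ => (hent.analyticAt _).meromorphicAt) hF hγ
  have e1 : ((-1 : ℝ) : ℂ) = -1 := by push_cast; rfl
  have hlim := deriv_rate (hent.analyticAt _) (by rw [e1]; exact h0) (by rw [e1]; exact h1) g1 g2 g3 g4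
  rw [e1] at hlim
  have hrate : (fun T : ℝ => Complex.exp (S E γ T) * T * Complex.exp (-Lam γ) - deriv F (-1))
      =O[atTop] (fun T : ℝ => 1 / T) := hlim.1
  have ht := tendsto_of_rate hrate
  refine ⟨hs, hrate, hlim.2, fun ρ hρ D => int_tfae ht ρ D, fun ρ hρ => ?_⟩
  exact rat_iff' ht h1 (by exact_mod_cast hρ)

end Pool.Agent.Results.MP_4132b3_nt.DerivativeAtMinusOne
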