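import Pool.Agent.Q68.OV.Line

/-!
# `K_4` of one curve of genus one and finitely many cubics `T(x, y, z) = 1`

Let `S` be **one** smooth projective curve of genus one over `ℚ`, with Jacobian `E`. The question Q1 for
`S` is whether `Π(α) ∈ ℚ^× · L'(E, -1)` for all nonzero `α` in `H_M^2(S, ℚ(3))` (`PeriodStatement`).

For a smooth projective scheme `Y` over `ℚ` let `M^m(Y) = H_M^{2m-4}(Y, ℚ(m))`,
`D^m(Y) = H_𝒟^{2m-4}(Y_ℝ, ℝ(m))`, and `r : M^m(Y) → D^m(Y)` the regulator; here `M^3(S) = H_M^2(S, ℚ(3))`
and `D^3(S) = H^1(S(ℂ), ℝ(2))^+`, a real line, and the period of a class is `(2πi)^{-2}` times its integral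
over `γ_S^+`.
The cycles `c` on `S × Y` of the codimension `m - 2` operate by `c_*` on both, from the index `3` on `S`
to the index `m` on `Y`. Let `V ⊆ D^3(S)` be the rational line of the classes whose period is a rational
multiple of `L'(E, -1)`. Let `A^m(Y) ⊆ D^m(Y)` be the rational subspace generated by the images
`c_* V`, and `B^m(Y) = B_1^m(Y) ⊕ B_2^m(Y)`, where `B_1^m(Y) ⊆ D^m(Y)` is generated by `A^m(Y)` and the
`c_* r(x)`, `x` in `M^3(S)`, and `B_2^m(Y) ⊆ M^m(Y)` by the `c_* x`, `x` in `M^3(S)` with `r(x) = 0`, for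
all cycles `c` as above. They are additive functors of the Chow motive of `Y`, and the map
`A^m(Y) → B^m(Y)` (the inclusion in `B_1^m(Y)`) is bijective if and only if all these `c_* r(x)` are in
`A^m(Y)` and all these `c_* x` with `r(x) = 0` are zero (`LineStable`). For a separated scheme `Z` of finite
type over `ℚ` let `W(Z)` be its weight complex (Gillet, Soulé; `W(Z) = h(Z)` for smooth projective `Z`), and
put `A^{m,i}(Z) = H^i(A^m(W(Z)))`, `B^{m,i}(Z) = H^i(B^m(W(Z)))`. `At C m Z` says that the maps
`A^{m,i}(Z) → B^{m,i}(Z)` are isomorphisms for this `m` and all `i`, `BijAll C Z` that they are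
isomorphisms for all `m` and `i`.

**Theorem.** There are finite lists `L`, `L'` of trilinear forms over `ℚ` and a finite list `G` of
tripartite hypergraphs, which depend only on `S`, with the following properties.

(1) Each form in `L` has at least three variables in each of its three blocks, and exactly **three**
in one of them. The question Q1 has a positive answer for `S` (`PeriodStatement`) if and only if the maps
`A^{m,i}(Z) → B^{m,i}(Z)` are isomorphisms, for all `m` and `i`, for the finitely many smooth affine cubic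
hypersurfaces `Z : T(x, y, z) = 1`, `T` in `L`. If it has, they are isomorphisms for all `T` over `ℚ`.

(2) It has if and only if, for the finitely many hypersurfaces `T = 1`, `T` in `L'`, and the **one** index
`m = a + 2`, `a` the number of the variables `x_i`, the maps are isomorphisms for all `i`.

(3) It has if and only if the maps are isomorphisms for the finitely many hypersurfaces
`∑_{(i, j, l) ∈ H} x_i y_j z_l = 1`, `H` in `G`.

(4) The maps are isomorphisms for all forms with a block of at most two variables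
(`zero`: in dimension zero all groups which occur are zero, by the theorem of Borel).
-/

set_option autoImplicit false

open CategoryTheory CategoryTheory.Limits AlgebraicGeometry Pool.Agent.Y116.UV Pool.Agent.Z125.UN
  Pool.Agent.Q193.LT Pool.Agent.Q49.WU Pool.Agent.Q68.OV

universe w u

namespace Pool.Agent.Results.MP_4132b3_nt.FinitelyManyCubics

/-- A curve `S` of genus one over `ℚ`: `M m Y` and `D m Y` are `H_M^{2m-4}(Y, ℚ(m))` and
`H_𝒟^{2m-4}(Y_ℝ, ℝ(m))`, `Cyc m Y` is the type of the cycles of codimension `m - 2` on `S × Y`, `T` and `P`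
are `H_M^2(S, ℚ(3))` and `H^1(S(ℂ), ℝ(2))^+`, `per` is the period `(2πi)^{-2} ∫_{γ_S^+}`, and `lval` is
`L'(E, -1)`, which is not zero. -/
abbrev GenusOneData (S : Sch ℚ) := LineData.{w, u} ℚ S 3

/-- The maps are isomorphisms for the index `m`. -/
def At (C : PairData.{w} ℚ (ℤ × ℤ) ℚ) (m : ℤ) (Z : Sch ℚ) : Prop := BijAt C Prod.fst m Z

/-- **`K_4` of one curve of genus one and finitely many cubics.** See the explanations above. -/
theorem result {S : Sch ℚ} (hS : SmoothProj S) (hn : topologicalKrullDim S.left ≤ (1 : ℕ)) :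
    ∃ (L L' : List (Form ℚ)) (G : List Graph), (∀ t ∈ L, t.Block 3 ∧ ¬ t.Block 2) ∧
      ∀ (D : GenusOneData.{w, u} S) (C : PairData.{w} ℚ (ℤ × ℤ) ℚ), IsLine D → IsWeightPair C →
        WeightGen C → (∀ Y, SmoothProj Y → ∀ m, (At C m Y ↔ LineStable D m Y)) →
        (zero : ∀ Y : Sch ℚ, SmoothProj Y → topologicalKrullDim Y.left ≤ (0 : ℕ) → BijAll C Y) →
        (PeriodStatement D ↔ ∀ t ∈ L, BijAll C t.hyp) ∧
        (PeriodStatement D ↔ ∀ t ∈ L', At C (t.a + 2) t.hyp) ∧
        (PeriodStatement D ↔ ∀ g ∈ G, BijAll C (g.hyp ℚ)) ∧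
        (PeriodStatement D → ∀ t : Form ℚ, BijAll C t.hyp) ∧
        (∀ t : Form ℚ, t.Block 2 → BijAll C t.hyp) := by
  obtain ⟨L, L', G, hL, h⟩ := line_finite.{w, u} hS hn 0 3
  refine ⟨L, L', G, hL, fun D C hD hC hg bij zero => ?_⟩
  obtain ⟨h3, h4, h5, h6, h7⟩ := h D C hD hC hg bij zero
  refine ⟨h3, h4.trans ?_, h5 frac_rat, h6, h7⟩
  have e : ∀ t : Form ℚ, (3 : ℤ) - 1 + t.a = t.a + 2 := fun t => by ring
  constructor
  · intro h t ht
    have h1 := h t ht
    rwa [e t] at h1
  · intro h t ht
    rw [e t]
    exact h t ht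

end Pool.Agent.Results.MP_4132b3_nt.FinitelyManyCubics
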