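import Mathlib

/-!
# Beilinson's conjecture for `K_4` of genus one curves is a statement on ranks

`Curve` is the set of smooth projective curves of genus one over `ℚ`. For such a curve `C` with Jacobian `E`
let `V C = H^2_M(C, ℚ(3))`, `reg C = Π : V C → ℝ` the regulator integrated over `γ_C^+`, and
`val C = L'(E, -1)`. Question Q1 for `C` is `Q1 C`: `Π(α)` is a nonzero rational multiple of
`L'(E, -1)` for all `α ≠ 0`.

Known facts (`IsKFour`):

* `ne`: `L'(E, -1) ≠ 0`;
* `beilinson`: for every elliptic curve `E` over `ℚ` there is an `α` in `V E` with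
  `Π(α) ∈ ℚ^× L'(E, -1)` (Beilinson's theorem on modular curves, for `h^1` of modular curves and all
  twists, and the modularity of `E`);
* `same`: if the Jacobians of `C` and `C'` are isogenous (relation `Isog`), the Chow motives `h^1(C)` and
  `h^1(C')` are isomorphic; as `K_4(ℚ)^{(3)} = K_4(ℚ)^{(2)} = 0`, the other summands of `h(C)` do not
  contribute to `V C`. So there is an isomorphism `V C ≅ V C'`, compatible with `Π` up to a nonzero rational
  factor. The `L`-functions are equal.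
* `split`: let `K` be a multiquadratic field (the index set `X K` are the `[K : ℚ]` characters of
  `Gal(K/ℚ)`, with the trivial one), and let `E` be an elliptic curve over `ℚ` with the quadratic twists
  `E^χ`. Then `VK E K = H^2_M(E_K, ℚ(3))` is the direct sum of the `V (E^χ)`, `χ` in `X K` (as
  `h^1(E) ⊗ h(K)` is the sum of the `h^1(E^χ)`, and `K_4(K) ⊗ ℚ = 0`).
* `self`, `rational`: for `K = ℚ` there is only the trivial character, and the twist by it is `E`.

**Theorem.**

1. For every `C` the following are equivalent: question Q1 for `C`; `H^2_M(C, ℚ(3))` has dimension one;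
   `Π` is injective with image `ℚ · L'(E, -1)`; the regulator `H^2_M(C, ℚ(3)) ⊗ ℝ → ℝ` is bijective.
2. Question Q1 for `C` depends only on the isogeny class of the Jacobian. So it has a positive answer for
   all `C` if and only if `H^2_M(E, ℚ(3))` has dimension one for one elliptic curve `E` in each isogeny class.
3. For an elliptic curve `E` over `ℚ` and a multiquadratic field `K`, question Q1 is true for all the twists
   `E^χ` by characters of `Gal(K/ℚ)` if and only if `H^2_M(E_K, ℚ(3))` has dimension `[K : ℚ]`. In general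
   this dimension is at least `[K : ℚ]`, if it is finite.
4. Question Q1 has a positive answer for all `C` if and only if `dim H^2_M(E_K, ℚ(3)) = [K : ℚ]` for all
   elliptic curves `E` over `ℚ` and all multiquadratic fields `K`.

No `L`-function occurs in the conditions on dimensions.
-/

set_option autoImplicit false

open scoped TensorProduct

namespace Pool.Agent.Results.MP_4132b3_nt.RankOne

/-- Curves of genus one, `H^2_M(C, ℚ(3))`, the regulator, and `L'(E, -1)`. -/
structure KFour where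
  /-- curves of genus one over `ℚ` -/
  Curve : Type
  /-- the elliptic curves -/
  Elliptic : Curve → Prop
  /-- the Jacobians are isogenous -/
  Isog : Curve → Curve → Prop
  /-- `H^2_M(C, ℚ(3))` -/
  V : Curve → Type
  [addV : ∀ C, AddCommGroup (V C)]
  [modV : ∀ C, Module ℚ (V C)]
  /-- `Π` -/
  reg : ∀ C, V C →ₗ[ℚ] ℝ
  /-- `L'(E, -1)` -/
  val : Curve → ℝ
  /-- multiquadratic fields -/
  Field : Type
  /-- the characters of `Gal(K/ℚ)` -/
  X : Field → Type
  [finX : ∀ K, Fintype (X K)]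
  /-- the rational field -/
  Q : Field
  /-- the quadratic twists -/
  twist : Curve → (K : Field) → X K → Curve
  /-- `H^2_M(E_K, ℚ(3))` -/
  VK : Curve → Field → Type
  [addVK : ∀ C K, AddCommGroup (VK C K)]
  [modVK : ∀ C K, Module ℚ (VK C K)]

attribute [instance] KFour.addV KFour.modV KFour.finX KFour.addVK KFour.modVK

/-- The known facts, see above. -/
structure IsKFour (D : KFour) : Prop where
  ne : ∀ C, D.val C ≠ 0
  beilinson : ∀ E, D.Elliptic E → ∃ (α : D.V E) (r : ℚ), r ≠ 0 ∧ D.reg E α = r * D.val E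
  jacobian : ∀ C, ∃ E, D.Elliptic E ∧ D.Isog C E
  same : ∀ C C', D.Isog C C' → D.val C = D.val C' ∧
    ∃ (e : D.V C ≃ₗ[ℚ] D.V C') (s : ℚ), s ≠ 0 ∧ ∀ α, D.reg C' (e α) = s * D.reg C α
  twist : ∀ E, D.Elliptic E → ∀ K χ, D.Elliptic (D.twist E K χ)
  split : ∀ E, D.Elliptic E → ∀ K, Nonempty (D.VK E K ≃ₗ[ℚ] ∀ χ, D.V (D.twist E K χ))
  self : ∀ E, D.Elliptic E → ∀ χ, D.twist E D.Q χ = E
  rational : Fintype.card (D.X D.Q) = 1

/-- Question Q1 for the curve `C`. -/
def Q1 (D : KFour) (C : D.Curve) : Prop :=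
  ∀ α : D.V C, α ≠ 0 → ∃ r : ℚ, r ≠ 0 ∧ D.reg C α = r * D.val C

section linear

variable {V : Type} [AddCommGroup V] [Module ℚ V] (f : V →ₗ[ℚ] ℝ) {L : ℝ}

lemma q1_iff_finrank (hL : L ≠ 0) (h0 : ∃ (α : V) (r : ℚ), r ≠ 0 ∧ f α = r * L) :
    (∀ α : V, α ≠ 0 → ∃ r : ℚ, r ≠ 0 ∧ f α = r * L) ↔ Module.finrank ℚ V = 1 := by
  obtain ⟨α₀, r₀, hr₀, h1⟩ := h0
  have hα₀ : α₀ ≠ 0 := by
    rintro rfl
    rw [map_zero] at h1
    exact mul_ne_zero (by exact_mod_cast hr₀) hL h1.symm
  constructor
  · intro h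
    refine finrank_eq_one α₀ hα₀ fun α => ?_
    by_cases hα : α = 0
    · exact ⟨0, by rw [hα, zero_smul]⟩
    · obtain ⟨r, hr, h2⟩ := h α hα
      refine ⟨r / r₀, ?_⟩
      by_contra h3
      obtain ⟨s, hs, h4⟩ := h _ (sub_ne_zero.mpr h3)
      have h5 : f ((r / r₀) • α₀ - α) = 0 := by
        rw [map_sub, map_smul, h1, h2, Rat.smul_def]
        push_cast
        have h6 : (r₀ : ℝ) ≠ 0 := by exact_mod_cast hr₀
        field_simp
        ring
      rw [h5] at h4
      exact mul_ne_zero (by exact_mod_cast hs) hL h4.symm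
  · intro h α hα
    obtain ⟨c, rfl⟩ := (finrank_eq_one_iff_of_nonzero' α₀ hα₀).mp h α
    have hc : c ≠ 0 := by
      rintro rfl
      exact hα (zero_smul _ _)
    refine ⟨c * r₀, mul_ne_zero hc hr₀, ?_⟩
    rw [map_smul, h1, Rat.smul_def]
    push_cast
    ring

lemma q1_iff_image (hL : L ≠ 0) (h0 : ∃ (α : V) (r : ℚ), r ≠ 0 ∧ f α = r * L) :
    (∀ α : V, α ≠ 0 → ∃ r : ℚ, r ≠ 0 ∧ f α = r * L) ↔
      Function.Injective f ∧ Set.range f = {x : ℝ | ∃ r : ℚ, x = r * L} := by
  constructor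
  · intro h
    have hinj : Function.Injective f := by
      rw [injective_iff_map_eq_zero]
      intro α hα
      by_contra h1
      obtain ⟨r, hr, h2⟩ := h α h1
      rw [hα] at h2
      exact mul_ne_zero (by exact_mod_cast hr) hL h2.symm
    refine ⟨hinj, Set.eq_of_subset_of_subset ?_ ?_⟩
    · rintro _ ⟨α, rfl⟩
      by_cases hα : α = 0
      · exact ⟨0, by rw [hα, map_zero]; simp⟩
      · obtain ⟨r, _, h2⟩ := h α hα
        exact ⟨r, h2⟩
    · rintro x ⟨r, rfl⟩
      obtain ⟨α₀, r₀, hr₀, h1⟩ := h0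
      refine ⟨(r / r₀) • α₀, ?_⟩
      have h6 : (r₀ : ℝ) ≠ 0 := by exact_mod_cast hr₀
      rw [map_smul, h1, Rat.smul_def]
      push_cast
      field_simp
  · rintro ⟨hinj, him⟩ α hα
    have h1 : f α ∈ Set.range f := ⟨α, rfl⟩
    rw [him] at h1
    obtain ⟨r, hr⟩ := h1
    refine ⟨r, ?_, hr⟩
    rintro rfl
    rw [Rat.cast_zero, zero_mul] at hr
    exact hα ((injective_iff_map_eq_zero f).mp hinj α hr)

lemma finrank_iff_bijective (h0 : ∃ α : V, f α ≠ 0) :
    Module.finrank ℚ V = 1 ↔ Function.Bijective (LinearMap.liftBaseChange ℝ f) := by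
  have h1 : Module.finrank ℝ (ℝ ⊗[ℚ] V) = Module.finrank ℚ V := Module.finrank_baseChange
  constructor
  · intro h
    rw [h] at h1
    have h2 : Function.Surjective (LinearMap.liftBaseChange ℝ f) := by
      obtain ⟨α, hα⟩ := h0
      intro x
      refine ⟨(x / f α) ⊗ₜ α, ?_⟩
      rw [LinearMap.liftBaseChange_tmul, smul_eq_mul, div_mul_cancel₀ _ hα]
    have : Module.Finite ℝ (ℝ ⊗[ℚ] V) := Module.finite_of_finrank_pos (by omega)
    refine ⟨?_, h2⟩
    exact (LinearMap.injective_iff_surjective_of_finrank_eq_finrank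
      (by rw [h1, Module.finrank_self])).mpr h2
  · intro h
    rw [← h1, (LinearEquiv.ofBijective _ h).finrank_eq, Module.finrank_self]

end linear

variable {D : KFour}

lemma exists_class (h : IsKFour D) (C : D.Curve) :
    ∃ (α : D.V C) (r : ℚ), r ≠ 0 ∧ D.reg C α = r * D.val C := by
  obtain ⟨E, hE, hC⟩ := h.jacobian C
  obtain ⟨hv, e, s, hs, h1⟩ := h.same C E hC
  obtain ⟨α, r, hr, h2⟩ := h.beilinson E hE
  refine ⟨e.symm α, r / s, div_ne_zero hr hs, ?_⟩
  have h3 := h1 (e.symm α)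
  rw [e.apply_symm_apply, h2, ← hv] at h3
  have h4 : (s : ℝ) ≠ 0 := by exact_mod_cast hs
  push_cast
  field_simp
  linarith

lemma rank_iff (h : IsKFour D) (C : D.Curve) : Q1 D C ↔ Module.finrank ℚ (D.V C) = 1 :=
  q1_iff_finrank (D.reg C) (h.ne C) (exists_class h C)

lemma isog_iff (h : IsKFour D) {C C' : D.Curve} (hC : D.Isog C C') : Q1 D C ↔ Q1 D C' := by
  obtain ⟨-, e, -⟩ := h.same C C' hC
  rw [rank_iff h, rank_iff h, e.finrank_eq]

lemma nontrivial_class (h : IsKFour D) (C : D.Curve) : Nontrivial (D.V C) := by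
  obtain ⟨α, r, hr, h1⟩ := exists_class h C
  refine ⟨α, 0, ?_⟩
  rintro rfl
  rw [map_zero] at h1
  exact mul_ne_zero (by exact_mod_cast hr) (h.ne C) h1.symm

lemma factors_finite {E : D.Curve} {K : D.Field} (e : D.VK E K ≃ₗ[ℚ] ∀ χ, D.V (D.twist E K χ))
    [Module.Finite ℚ (D.VK E K)] (χ : D.X K) : Module.Finite ℚ (D.V (D.twist E K χ)) :=
  Module.Finite.of_surjective
    ((LinearMap.proj (R := ℚ) (φ := fun χ : D.X K => D.V (D.twist E K χ)) χ).comp e.toLinearMap)
    fun x => by
      classical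
      refine ⟨e.symm (Pi.single χ x), ?_⟩
      simp

lemma card_le (h : IsKFour D) {E : D.Curve} (hE : D.Elliptic E) (K : D.Field)
    [Module.Finite ℚ (D.VK E K)] : Fintype.card (D.X K) ≤ Module.finrank ℚ (D.VK E K) := by
  obtain ⟨e⟩ := h.split E hE K
  have h1 := factors_finite e
  rw [e.finrank_eq, Module.finrank_pi_fintype, Fintype.card_eq_sum_ones]
  refine Finset.sum_le_sum fun χ _ => ?_
  have := nontrivial_class h (D.twist E K χ)
  exact Module.finrank_pos

lemma twists_iff (h : IsKFour D) {E : D.Curve} (hE : D.Elliptic E) (K : D.Field) :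
    (∀ χ, Q1 D (D.twist E K χ)) ↔ Module.finrank ℚ (D.VK E K) = Fintype.card (D.X K) := by
  obtain ⟨e⟩ := h.split E hE K
  simp only [rank_iff h]
  constructor
  · intro h1
    have h2 : ∀ χ, Module.Finite ℚ (D.V (D.twist E K χ)) := fun χ =>
      Module.finite_of_finrank_pos (by rw [h1 χ]; exact one_pos)
    rw [e.finrank_eq, Module.finrank_pi_fintype, Finset.sum_congr rfl fun χ _ => h1 χ,
      ← Fintype.card_eq_sum_ones]
  · intro h1 χ
    have : Module.Finite ℚ (D.VK E K) := by
      refine Module.finite_of_finrank_pos ?_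
      rw [h1]
      exact Fintype.card_pos_iff.mpr ⟨χ⟩
    have h2 := factors_finite e
    rw [e.finrank_eq, Module.finrank_pi_fintype, Fintype.card_eq_sum_ones] at h1
    have h3 : ∀ ψ ∈ Finset.univ, 1 ≤ Module.finrank ℚ (D.V (D.twist E K ψ)) := fun ψ _ => by
      have := nontrivial_class h (D.twist E K ψ)
      exact Module.finrank_pos
    exact ((Finset.sum_eq_sum_iff_of_le h3).mp h1.symm χ (Finset.mem_univ χ)).symm

/-- **Beilinson's conjecture for `K_4` of genus one curves is a statement on ranks.** See the explanations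
above; `[K : ℚ]` is the number of the characters. -/
theorem result (h : IsKFour D) :
    (∀ C : D.Curve,
      (Q1 D C ↔ Module.finrank ℚ (D.V C) = 1) ∧
      (Q1 D C ↔ Function.Injective (D.reg C) ∧
        Set.range (D.reg C) = {x : ℝ | ∃ r : ℚ, x = r * D.val C}) ∧
      (Q1 D C ↔ Function.Bijective (LinearMap.liftBaseChange ℝ (D.reg C)))) ∧
    (∀ C C', D.Isog C C' → (Q1 D C ↔ Q1 D C')) ∧
    (∀ S : Set D.Curve, (∀ C, ∃ E ∈ S, D.Isog C E) →
      ((∀ C, Q1 D C) ↔ ∀ E ∈ S, Module.finrank ℚ (D.V E) = 1)) ∧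
    (∀ E, D.Elliptic E → ∀ K,
      ((∀ χ, Q1 D (D.twist E K χ)) ↔
        Module.finrank ℚ (D.VK E K) = Fintype.card (D.X K)) ∧
      (Module.Finite ℚ (D.VK E K) → Fintype.card (D.X K) ≤ Module.finrank ℚ (D.VK E K))) ∧
    ((∀ C, Q1 D C) ↔
      ∀ E, D.Elliptic E → ∀ K, Module.finrank ℚ (D.VK E K) = Fintype.card (D.X K)) := by
  refine ⟨fun C => ⟨rank_iff h C, q1_iff_image (D.reg C) (h.ne C) (exists_class h C), ?_⟩,
    fun C C' => isog_iff h, fun S hS => ⟨fun h1 E _ => (rank_iff h E).mp (h1 E), fun h1 C => ?_⟩,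
    fun E hE K => ⟨twists_iff h hE K, fun _ => card_le h hE K⟩, fun h1 E hE K =>
      (twists_iff h hE K).mp fun χ => h1 _, fun h1 C => ?_⟩
  · obtain ⟨α, r, hr, h1⟩ := exists_class h C
    refine (rank_iff h C).trans (finrank_iff_bijective (D.reg C) ⟨α, ?_⟩)
    rw [h1]
    exact mul_ne_zero (by exact_mod_cast hr) (h.ne C)
  · obtain ⟨E, hE, hC⟩ := hS C
    exact (isog_iff h hC).mpr ((rank_iff h E).mpr (h1 E hE))
  · obtain ⟨E, hE, hC⟩ := h.jacobian C
    refine (isog_iff h hC).mpr ?_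
    have h2 := (twists_iff h hE D.Q).mpr (h1 E hE D.Q)
    obtain ⟨χ⟩ := Fintype.card_pos_iff.mp (by rw [h.rational]; exact one_pos : 0 < Fintype.card (D.X D.Q))
    have h3 := h2 χ
    rwa [h.self E hE χ] at h3

end Pool.Agent.Results.MP_4132b3_nt.RankOne
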